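import Pool.Agent.H99.SubFine

set_option autoImplicit false

open Module Submodule Finset Pool.Agent.H99.SubDeg

namespace Pool.Agent.Results.MP_5499ac_co.SmallestRange

open scoped Classical in
/-- The integer `M` is admissible for the finite field `K`: for all large `k` and all
`n ≥ 2k + M`, every intersecting family of `k`-dimensional subspaces of `K^n` has at most
`[k+1]_q` high points (points of degree `> [n-2 choose k-2]_q`). -/
def Admissible (K : Type) [Field K] [Finite K] (M : ℤ) : Prop :=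
  ∃ k₀ : ℕ, ∀ k n : ℕ, k₀ ≤ k → 2 * (k : ℤ) + M ≤ n →
    ∀ F : Finset (Submodule K (Fin n → K)),
      (∀ A ∈ F, finrank K A = k) → (∀ A ∈ F, ∀ B ∈ F, A ⊓ B ≠ ⊥) →
      (univ.filter (fun P : Submodule K (Fin n → K) => finrank K P = 1 ∧
        gb (Nat.card K) (n - 2) (k - 2) < (F.filter (fun A => P ≤ A)).card)).card
        ≤ br (Nat.card K) (k + 1)

variable (K : Type) [Field K] [Finite K]

lemma high_eq {n k : ℕ} (F : Finset (Submodule K (Fin n → K))) :
    (open scoped Classical in
      (univ.filter (fun P : Submodule K (Fin n → K) => finrank K P = 1 ∧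
        gb (Nat.card K) (n - 2) (k - 2) < (F.filter (fun A => P ≤ A)).card)).card)
      = (high k F).card := by
  have hV : finrank K (Fin n → K) = n := by simp
  rw [high, hV]
  rfl

lemma not_zero (M : ℤ) (hM : M ≤ 0) : ¬ Admissible K M := by
  rintro ⟨k₀, h⟩
  have hq1 : 1 < Nat.card K := Finite.one_lt_card
  set k := max k₀ 3 with hk
  have hk3 : 3 ≤ k := le_max_right _ _
  have hV : finrank K (Fin (2 * k) → K) = 2 * k := by simp
  obtain ⟨F, hF, hcard⟩ := hyper_family (K := K) (V := Fin (2 * k) → K) k hk3 hV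
  have h1 := h k (2 * k) (le_max_left _ _) (by push_cast; linarith) F hF.1 hF.2
  rw [high_eq] at h1
  have h2 := Nat.mul_le_mul_right (Nat.card K - 1) h1
  rw [br_mul] at h2
  have h3 : Nat.card K ^ (k + 1) < Nat.card K ^ (2 * k - 1) :=
    Nat.pow_lt_pow_right hq1 (by omega)
  have h4 : 1 ≤ Nat.card K ^ (k + 1) := Nat.one_le_pow _ _ (by omega)
  omega

lemma adm (M : ℤ) (hM : 2 ≤ M ∨ (3 ≤ Nat.card K ∧ 1 ≤ M)) : Admissible K M := by
  have hq1 : 1 < Nat.card K := Finite.one_lt_card
  refine ⟨7, fun k n hk hn F h1 h2 => ?_⟩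
  have hV : finrank K (Fin n → K) = n := by simp
  rw [high_eq]
  have h3 := high_card2 (K := K) (V := Fin n → K) k F hk (by
    rw [hV]
    rcases hM with hM | ⟨h3, hM⟩
    · left; omega
    · right; exact ⟨h3, by omega⟩) ⟨h1, h2⟩
  rw [← br_mul] at h3
  exact Nat.le_of_mul_le_mul_right h3 (by omega)

/-- **MP_5499ac_co.**  Part 1: for `q ≥ 3` the smallest admissible integer is `M_q = 1`.
Part 2: for every `q` (so also `q = 2`), `2` is admissible and no integer `≤ 0` is, so an
admissible integer exists and `M_2` is `1` or `2`.  Part 3: `gb q a b` counts the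
`b`-dimensional subspaces of `K^a`. -/
theorem result :
    (3 ≤ Nat.card K → IsLeast {M : ℤ | Admissible K M} 1) ∧
    (Admissible K 2 ∧ ∀ M : ℤ, M ≤ 0 → ¬ Admissible K M) ∧
    (∀ a b : ℕ, b ≤ a →
      gb (Nat.card K) a b = Nat.card {W : Submodule K (Fin a → K) // finrank K W = b}) := by
  refine ⟨fun h3 => ⟨adm K 1 (Or.inr ⟨h3, le_rfl⟩), ?_⟩, ⟨adm K 2 (Or.inl le_rfl), not_zero K⟩,
    ?_⟩
  · intro M hM
    by_contra hlt
    push Not at hlt
    exact not_zero K M (by omega) hM
  · intro a b hab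
    have hV : finrank K (Fin a → K) = a := by simp
    have h2 := cnt_eq_gb (K := K) (Fin a → K) b (by omega)
    rw [hV] at h2
    rw [← h2, cnt, Nat.card_eq_fintype_card, Fintype.card_subtype]

end Pool.Agent.Results.MP_5499ac_co.SmallestRange
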